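import Pool.Agent.H41.ET.Defs

set_option autoImplicit false

/-!
# Counting relabellings with many orbits (task ET-CNTA of helper41)
-/

namespace Pool.Agent.H254.ET

open Pool.Agent.H41.ET Finset

variable {V : Type}

lemma cl_orb (N O : V → V) (x : V) : Cl N O (orb N O x) :=
  ⟨fun y hy A hA hx => hA.1 y (hy A hA hx), fun y hy A hA hx => hA.2 y (hy A hA hx)⟩

lemma mem_orb (N O : V → V) (x : V) : x ∈ orb N O x := fun _ _ hx => hx

open scoped Classical in
/-- Many orbits give many closed sets. -/
lemma many [Fintype V] (N O : V → V) (m : ℕ) (h : ¬ Few N O m) :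
    2 ^ (m + 1) ≤ #{A : Finset V | Cl N O (A : Set V)} := by
  unfold Few at h
  push Not at h
  obtain ⟨P, hP, hc⟩ := h
  have h1 : 2 ^ (m + 1) ≤ #P.powerset := by
    rw [card_powerset]
    exact Nat.pow_le_pow_right (by norm_num) hc
  refine h1.trans (card_le_card_of_injOn
    (fun T => univ.filter (fun y => ∃ x ∈ T, y ∈ orb N O x)) ?_ ?_)
  · intro T _
    simp only [coe_filter, mem_univ, true_and, Set.mem_ofPred_eq]
    refine ⟨?_, ?_⟩
    · rintro y ⟨x, hx, hy⟩
      exact ⟨x, hx, (cl_orb N O x).1 y hy⟩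
    · rintro y ⟨x, hx, hy⟩
      exact ⟨x, hx, (cl_orb N O x).2 y hy⟩
  · have key : ∀ T ∈ P.powerset, ∀ y ∈ P,
        (y ∈ univ.filter (fun y => ∃ x ∈ T, y ∈ orb N O x) ↔ y ∈ T) := by
      intro T hT y hy
      rw [mem_powerset] at hT
      simp only [mem_filter, mem_univ, true_and]
      constructor
      · rintro ⟨x, hx, hyx⟩
        by_contra hcon
        have hne : x ≠ y := by
          rintro rfl
          exact hcon hx
        exact hP x (hT hx) y hy hne hyx
      · intro h
        exact ⟨y, h, mem_orb N O y⟩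
    intro T hT T' hT' hTT
    have hT1 : T ∈ P.powerset := hT
    have hT2 : T' ∈ P.powerset := hT'
    ext y
    constructor
    · intro hy
      have hyP := mem_powerset.1 hT1 hy
      rw [← key T' hT2 y hyP]
      have := (key T hT1 y hyP).2 hy
      simp only at hTT
      rwa [hTT] at this
    · intro hy
      have hyP := mem_powerset.1 hT2 hy
      rw [← key T hT1 y hyP]
      have := (key T' hT2 y hyP).2 hy
      simp only at hTT
      rwa [← hTT] at this

/-- A transversal of a fixed point free involution. -/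
lemma transv [Fintype V] (N : V → V) (hN : Inv0 N) :
    ∃ T : Finset V, ∀ x, (N x ∈ T ↔ x ∉ T) := by
  classical
  let e := Fintype.equivFin V
  refine ⟨univ.filter (fun x => e x < e (N x)), fun x => ?_⟩
  simp only [mem_filter, mem_univ, true_and, hN.1 x, not_lt]
  have hne : e (N x) ≠ e x := fun h => hN.2 x (e.injective h)
  constructor
  · exact fun h => h.le
  · exact fun h => lt_of_le_of_ne h hne

lemma card_two [DecidableEq V] {N : V → V} (hN : Inv0 N) {T : Finset V}
    (hT : ∀ x, (N x ∈ T ↔ x ∉ T)) (A : Finset V) (hA : ∀ x ∈ A, N x ∈ A) :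
    #A = 2 * #(A ∩ T) := by
  have h1 : #(A ∩ T) = #(A \ T) := by
    refine card_nbij' N N ?_ ?_ ?_ ?_
    · intro x hx
      simp only [coe_inter, Set.mem_inter_iff, mem_coe] at hx
      simp only [coe_sdiff, Set.mem_sdiff, mem_coe]
      refine ⟨hA x hx.1, fun h => ?_⟩
      exact (hT x).1 h hx.2
    · intro x hx
      simp only [coe_sdiff, Set.mem_sdiff, mem_coe] at hx
      simp only [coe_inter, Set.mem_inter_iff, mem_coe]
      exact ⟨hA x hx.1, (hT x).2 hx.2⟩
    · intro x _
      exact hN.1 x
    · intro x _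
      exact hN.1 x
  have h2 := card_sdiff_add_card_inter A T
  omega

lemma inj_on [DecidableEq V] {N : V → V} (hN : Inv0 N) {T : Finset V}
    (hT : ∀ x, (N x ∈ T ↔ x ∉ T)) {A B : Finset V} (hA : ∀ x ∈ A, N x ∈ A)
    (hB : ∀ x ∈ B, N x ∈ B) (h : A ∩ T = B ∩ T) : A = B := by
  have key : ∀ {A B : Finset V}, (∀ x ∈ A, N x ∈ A) → (∀ x ∈ B, N x ∈ B) → A ∩ T = B ∩ T →
      A ⊆ B := by
    intro A B hA hB h x hx
    by_cases hxT : x ∈ T
    · have : x ∈ A ∩ T := mem_inter.2 ⟨hx, hxT⟩
      rw [h] at this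
      exact (mem_inter.1 this).1
    · have : N x ∈ A ∩ T := mem_inter.2 ⟨hA x hx, (hT x).2 hxT⟩
      rw [h] at this
      have h2 := hB _ (mem_inter.1 this).1
      rwa [hN.1 x] at h2
  exact Subset.antisymm (key hA hB h) (key hB hA h.symm)

/-- Number of closed sets of given size. -/
lemma cnt_cl [Fintype V] [DecidableEq V] {N : V → V} (hN : Inv0 N) {T : Finset V}
    (hT : ∀ x, (N x ∈ T ↔ x ∉ T)) (b : ℕ) :
    #{B : Finset V | (∀ x ∈ B, N x ∈ B) ∧ #B = 2 * b} ≤ (#T).choose b := by
  rw [← card_powersetCard]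
  refine card_le_card_of_injOn (fun B => B ∩ T) ?_ ?_
  · intro B hB
    simp only [coe_filter, mem_univ, true_and, Set.mem_ofPred_eq] at hB
    simp only [mem_coe, mem_powersetCard]
    refine ⟨inter_subset_right, ?_⟩
    have := card_two hN hT B hB.1
    omega
  · intro A hA B hB hAB
    simp only [coe_filter, mem_univ, true_and, Set.mem_ofPred_eq] at hA hB
    exact inj_on hN hT hA.1 hB.1 hAB

/-- Number of permutations mapping `B` onto `A`. -/
lemma cnt_p [Fintype V] [DecidableEq V] (A B : Finset V) :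
    #{p : Equiv.Perm V | ∀ x, x ∈ B ↔ p x ∈ A} ≤
      (#B).factorial * (Fintype.card V - #B).factorial := by
  classical
  rw [← Fintype.card_subtype]
  let F : {p : Equiv.Perm V // ∀ x, x ∈ B ↔ p x ∈ A} →
      ({x // x ∈ B} ≃ {x // x ∈ A}) × ({x // ¬ x ∈ B} ≃ {x // ¬ x ∈ A}) :=
    fun p => (p.1.subtypeEquiv p.2, p.1.subtypeEquiv (fun x => not_congr (p.2 x)))
  have hF : Function.Injective F := by
    intro p q hpq
    have h1 := congrArg Prod.fst hpq
    have h2 := congrArg Prod.snd hpq
    apply Subtype.ext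
    ext x
    by_cases hx : x ∈ B
    · have := congrArg (fun f => (f ⟨x, hx⟩ : {x // x ∈ A}).1) h1
      simpa [F] using this
    · have := congrArg (fun f => (f ⟨x, hx⟩ : {x // ¬ x ∈ A}).1) h2
      simpa [F] using this
  rcases isEmpty_or_nonempty {p : Equiv.Perm V // ∀ x, x ∈ B ↔ p x ∈ A} with he | ⟨⟨p0⟩⟩
  · rw [Fintype.card_eq_zero]
    exact Nat.zero_le _
  · refine (Fintype.card_le_of_injective F hF).trans (le_of_eq ?_)
    rw [Fintype.card_prod, Fintype.card_equiv (F p0).1, Fintype.card_equiv (F p0).2,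
      Fintype.card_coe, Fintype.card_subtype_compl, Fintype.card_coe]

lemma choose_sq (d b : ℕ) : d.choose b * d.choose b ≤ (2 * d).choose (2 * b) := by
  rw [two_mul d, Nat.add_choose_eq d d (2 * b)]
  exact single_le_sum (f := fun ij : ℕ × ℕ => d.choose ij.1 * d.choose ij.2)
    (fun _ _ => Nat.zero_le _) (mem_antidiagonal.2 (two_mul b).symm : (b, b) ∈ antidiagonal (2 * b))

/-- ET-CNTA -/
theorem cntA : S_CNTA := by
  intro d m V _ _ N O hV hN hO
  classical
  obtain ⟨T, hT⟩ := transv N hN
  obtain ⟨T', hT'⟩ := transv O hO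
  have cT : #T = d := by
    have := card_two hN hT univ (fun _ _ => mem_univ _)
    rw [univ_inter, card_univ, hV] at this
    omega
  have cT' : #T' = d := by
    have := card_two hO hT' univ (fun _ _ => mem_univ _)
    rw [univ_inter, card_univ, hV] at this
    omega
  -- the weight of a closed set
  set g : ℕ → ℕ := fun b => d.choose b * ((2 * b).factorial * (2 * d - 2 * b).factorial) with hg
  -- relabellings for a fixed closed set
  have hA : ∀ A : Finset V, (∀ x ∈ A, N x ∈ A) →
      #{p : Equiv.Perm V | ∀ x ∈ A, cj p O x ∈ A} ≤ g (#(A ∩ T)) := by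
    intro A hcl
    have hAc := card_two hN hT A hcl
    set b := #(A ∩ T) with hb
    have hsub : ({p : Equiv.Perm V | ∀ x ∈ A, cj p O x ∈ A} : Finset (Equiv.Perm V)) ⊆
        ({B : Finset V | (∀ x ∈ B, O x ∈ B) ∧ #B = 2 * b} : Finset (Finset V)).biUnion
          (fun B => {p : Equiv.Perm V | ∀ x, x ∈ B ↔ p x ∈ A}) := by
      intro p hp
      simp only [mem_filter, mem_univ, true_and] at hp
      simp only [mem_biUnion, mem_filter, mem_univ, true_and]
      refine ⟨univ.filter (fun x => p x ∈ A), ⟨?_, ?_⟩, ?_⟩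
      · intro x hx
        simp only [mem_filter, mem_univ, true_and] at hx ⊢
        have := hp _ hx
        simpa [cj] using this
      · rw [← hAc]
        refine card_nbij' p p.symm ?_ ?_ ?_ ?_
        · intro x hx
          simpa using hx
        · intro x hx
          simpa using hx
        · intro x _
          simp
        · intro x _
          simp
      · intro x
        simp
    refine (card_le_card hsub).trans (card_biUnion_le.trans ?_)
    have h1 : ∀ B ∈ ({B : Finset V | (∀ x ∈ B, O x ∈ B) ∧ #B = 2 * b} : Finset (Finset V)),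
        #{p : Equiv.Perm V | ∀ x, x ∈ B ↔ p x ∈ A} ≤
          (2 * b).factorial * (2 * d - 2 * b).factorial := by
      intro B hB
      simp only [mem_filter, mem_univ, true_and] at hB
      have := cnt_p A B
      rwa [hB.2, hV] at this
    refine (sum_le_sum h1).trans ?_
    rw [sum_const, smul_eq_mul, hg]
    apply Nat.mul_le_mul_right
    have := cnt_cl hO hT' b
    rwa [cT'] at this
  have h0 : {p : Equiv.Perm V | ¬ Few N (cj p O) m}.ncard =
      #{p : Equiv.Perm V | ¬ Few N (cj p O) m} := by
    rw [Set.ncard_eq_toFinset_card']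
    congr 1
    ext p
    simp
  rw [h0]
  have h1 : #{p : Equiv.Perm V | ¬ Few N (cj p O) m} * 2 ^ (m + 1) ≤
      ∑ p : Equiv.Perm V, #{A : Finset V | Cl N (cj p O) (A : Set V)} := by
    rw [← smul_eq_mul, ← sum_const]
    refine (sum_le_sum (fun p hp => ?_)).trans (sum_le_univ_sum_of_nonneg (fun _ => Nat.zero_le _))
    simp only [mem_filter, mem_univ, true_and] at hp
    exact many N (cj p O) m hp
  have h2 : ∑ p : Equiv.Perm V, #{A : Finset V | Cl N (cj p O) (A : Set V)} ≤
      ∑ A ∈ ({A : Finset V | ∀ x ∈ A, N x ∈ A} : Finset (Finset V)), g (#(A ∩ T)) := by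
    simp_rw [card_filter]
    rw [sum_comm, sum_filter]
    refine sum_le_sum (fun A _ => ?_)
    by_cases hcl : ∀ x ∈ A, N x ∈ A
    · rw [if_pos hcl]
      refine le_trans ?_ (hA A hcl)
      rw [card_filter]
      refine sum_le_sum (fun p _ => ?_)
      by_cases hc : Cl N (cj p O) (A : Set V)
      · have hc2 : ∀ x ∈ A, cj p O x ∈ A := fun x hx => hc.2 x hx
        rw [if_pos hc, if_pos hc2]
      · rw [if_neg hc]
        exact Nat.zero_le _
    · rw [if_neg hcl]
      refine le_of_eq (sum_eq_zero (fun p _ => ?_))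
      rw [if_neg]
      intro hc
      exact hcl (fun x hx => hc.1 x hx)
  have h3 : ∑ A ∈ ({A : Finset V | ∀ x ∈ A, N x ∈ A} : Finset (Finset V)), g (#(A ∩ T)) ≤
      ∑ S ∈ T.powerset, g (#S) := by
    rw [← sum_image (s := ({A : Finset V | ∀ x ∈ A, N x ∈ A} : Finset (Finset V)))
      (g := fun A => A ∩ T) (f := fun S => g (#S))]
    · refine sum_le_sum_of_subset ?_
      intro S hS
      obtain ⟨A, _, rfl⟩ := mem_image.1 hS
      exact mem_powerset.2 inter_subset_right
    · intro A hA1 B hB1 hAB
      simp only [coe_filter, mem_univ, true_and, Set.mem_ofPred_eq] at hA1 hB1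
      exact inj_on hN hT hA1 hB1 hAB
  refine h1.trans (h2.trans (h3.trans ?_))
  rw [sum_powerset_apply_card g, cT]
  have h4 : ∀ b ∈ range (d + 1), d.choose b • g b ≤ (2 * d).factorial := by
    intro b hb
    rw [mem_range] at hb
    rw [smul_eq_mul, hg]
    calc d.choose b * (d.choose b * ((2 * b).factorial * (2 * d - 2 * b).factorial))
        = (d.choose b * d.choose b) * ((2 * b).factorial * (2 * d - 2 * b).factorial) := by ring
      _ ≤ (2 * d).choose (2 * b) * ((2 * b).factorial * (2 * d - 2 * b).factorial) :=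
          Nat.mul_le_mul_right _ (choose_sq d b)
      _ = (2 * d).factorial := by
          rw [← mul_assoc, Nat.choose_mul_factorial_mul_factorial (by omega)]
  refine (sum_le_sum h4).trans (le_of_eq ?_)
  rw [sum_const, card_range, smul_eq_mul]

end Pool.Agent.H254.ET
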